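import Pool.Agent.Helper75.PZ.GoalsC

/-!
Packet PZ-GFN (project PZ, MP_acfd82_an): a potential.
-/

namespace Pool.Agent.Helper14.PZ

open Pool.Agent.Helper75.PZ Finset Filter Topology

/-- Packet GFN. -/
theorem gfn : P_GFN := by
  intro h hmono hpos hsum
  have hp : ∀ n : ℕ, 0 < h ((1 / 2 : ℝ) ^ n) := fun n => hpos _ (by positivity)
  have hH : ∀ n : ℕ, 1 / h ((1 / 2 : ℝ) ^ n) ≤ 1 / h ((1 / 2 : ℝ) ^ (n + 1)) := by
    intro n
    apply one_div_le_one_div_of_le (hp (n + 1))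
    apply hmono
    exact pow_le_pow_of_le_one (by norm_num) (by norm_num) (Nat.le_succ n)
  set c : ℕ → ℝ := fun n => 1 / h ((1 / 2 : ℝ) ^ (n + 1)) - 1 / h ((1 / 2 : ℝ) ^ n) with hc
  have hc0 : ∀ n, 0 ≤ c n := fun n => by simp only [hc]; linarith [hH n]
  have hs : ∀ r : ℝ, 0 ≤ r → Summable fun n : ℕ => c n * min r ((1 / 2 : ℝ) ^ n) := by
    intro r hr
    have h1 : Summable fun n : ℕ => 2 * ((1 / 2 : ℝ) ^ (n + 1) / h ((1 / 2 : ℝ) ^ (n + 1))) :=
      ((summable_nat_add_iff 1).mpr hsum).mul_left 2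
    refine Summable.of_nonneg_of_le (fun n => ?_) (fun n => ?_) h1
    · exact mul_nonneg (hc0 n) (le_min hr (by positivity))
    · have h2 : c n ≤ 1 / h ((1 / 2 : ℝ) ^ (n + 1)) := by
        have : 0 < 1 / h ((1 / 2 : ℝ) ^ n) := one_div_pos.mpr (hp n)
        simp only [hc]; linarith
      have h3 : 0 < 1 / h ((1 / 2 : ℝ) ^ (n + 1)) := one_div_pos.mpr (hp (n + 1))
      calc c n * min r ((1 / 2 : ℝ) ^ n)
          ≤ 1 / h ((1 / 2 : ℝ) ^ (n + 1)) * (1 / 2 : ℝ) ^ n := by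
            apply mul_le_mul h2 (min_le_right _ _) (le_min hr (by positivity)) h3.le
        _ = 2 * ((1 / 2 : ℝ) ^ (n + 1) / h ((1 / 2 : ℝ) ^ (n + 1))) := by
            rw [pow_succ (1 / 2 : ℝ) n]
            ring
  refine ⟨fun r => r / h 1 + ∑' n : ℕ, c n * min r ((1 / 2 : ℝ) ^ n), ?_, ?_⟩
  · intro r hr
    have h1 : 0 ≤ r / h 1 := div_nonneg hr (hpos 1 one_pos).le
    have h2 : 0 ≤ ∑' n : ℕ, c n * min r ((1 / 2 : ℝ) ^ n) :=
      tsum_nonneg fun n => mul_nonneg (hc0 n) (le_min hr (by positivity))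
    exact add_nonneg h1 h2
  · intro r' r hr' hrr hr
    have hd : (∑' n : ℕ, c n * min r ((1 / 2 : ℝ) ^ n)) - ∑' n : ℕ, c n * min r' ((1 / 2 : ℝ) ^ n)
        = ∑' n : ℕ, (c n * min r ((1 / 2 : ℝ) ^ n) - c n * min r' ((1 / 2 : ℝ) ^ n)) :=
      ((hs r hr.le).tsum_sub (hs r' hr')).symm
    have hdn : ∀ n : ℕ, 0 ≤ c n * min r ((1 / 2 : ℝ) ^ n) - c n * min r' ((1 / 2 : ℝ) ^ n) := by
      intro n
      rw [← mul_sub]
      exact mul_nonneg (hc0 n) (sub_nonneg.mpr (min_le_min_right _ hrr))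
    have hds : Summable fun n : ℕ =>
        (c n * min r ((1 / 2 : ℝ) ^ n) - c n * min r' ((1 / 2 : ℝ) ^ n)) :=
      (hs r hr.le).sub (hs r' hr')
    have h1 : 0 < h 1 := hpos 1 one_pos
    have hgoal : (r - r') / h r ≤ (r - r') / h 1
        + ∑' n : ℕ, (c n * min r ((1 / 2 : ℝ) ^ n) - c n * min r' ((1 / 2 : ℝ) ^ n)) := by
      rcases le_or_gt r 1 with hr1 | hr1
      · obtain ⟨N, hN1, hN2⟩ := exists_nat_pow_near_of_lt_one hr hr1
          (by norm_num : (0 : ℝ) < 1 / 2) (by norm_num)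
        have h2 : ∑ n ∈ range (N + 1),
            (c n * min r ((1 / 2 : ℝ) ^ n) - c n * min r' ((1 / 2 : ℝ) ^ n))
            ≤ ∑' n : ℕ, (c n * min r ((1 / 2 : ℝ) ^ n) - c n * min r' ((1 / 2 : ℝ) ^ n)) :=
          hds.sum_le_tsum _ (fun n _ => hdn n)
        have h3 : ∑ n ∈ range (N + 1),
            (c n * min r ((1 / 2 : ℝ) ^ n) - c n * min r' ((1 / 2 : ℝ) ^ n))
            = (r - r') * (1 / h ((1 / 2 : ℝ) ^ (N + 1)) - 1 / h 1) := by
          have h4 : ∀ n ∈ range (N + 1),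
              c n * min r ((1 / 2 : ℝ) ^ n) - c n * min r' ((1 / 2 : ℝ) ^ n)
              = (r - r') * (1 / h ((1 / 2 : ℝ) ^ (n + 1)) - 1 / h ((1 / 2 : ℝ) ^ n)) := by
            intro n hn
            have hnN : n ≤ N := Nat.lt_succ_iff.mp (mem_range.mp hn)
            have h5 : (1 / 2 : ℝ) ^ N ≤ (1 / 2 : ℝ) ^ n :=
              pow_le_pow_of_le_one (by norm_num) (by norm_num) hnN
            rw [min_eq_left (hN2.trans h5), min_eq_left ((hrr.trans hN2).trans h5)]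
            simp only [hc]
            ring
          rw [sum_congr rfl h4, ← mul_sum,
            sum_range_sub (fun n => 1 / h ((1 / 2 : ℝ) ^ n)) (N + 1)]
          simp
        have h6 : 1 / h r ≤ 1 / h ((1 / 2 : ℝ) ^ (N + 1)) :=
          one_div_le_one_div_of_le (hp (N + 1)) (hmono hN1.le)
        have h7 : (r - r') / h r ≤ (r - r') * (1 / h ((1 / 2 : ℝ) ^ (N + 1))) := by
          rw [div_eq_mul_one_div]
          exact mul_le_mul_of_nonneg_left h6 (sub_nonneg.mpr hrr)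
        have h8 : (r - r') / h 1 = (r - r') * (1 / h 1) := div_eq_mul_one_div _ _
        rw [h8]
        linarith
      · have h2 : (r - r') / h r ≤ (r - r') / h 1 :=
          div_le_div_of_nonneg_left (sub_nonneg.mpr hrr) h1 (hmono hr1.le)
        have h3 : 0 ≤ ∑' n : ℕ,
            (c n * min r ((1 / 2 : ℝ) ^ n) - c n * min r' ((1 / 2 : ℝ) ^ n)) := tsum_nonneg hdn
        linarith
    have h9 : (r - r') / h 1 = r / h 1 - r' / h 1 := sub_div _ _ _
    rw [← hd, h9] at hgoal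
    show (r - r') / h r ≤ (r / h 1 + ∑' n : ℕ, c n * min r ((1 / 2 : ℝ) ^ n))
      - (r' / h 1 + ∑' n : ℕ, c n * min r' ((1 / 2 : ℝ) ^ n))
    linarith

end Pool.Agent.Helper14.PZ
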