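import Pool.Agent.Helper75.PZ.GoalsA

/-!
Packet PZ-SUP (project PZ, MP_acfd82_an).
-/

namespace Pool.Agent.Helper14.PZ

open Pool.Agent.Helper75.PZ

/-- Packet SUP. -/
theorem sup (h1 : P_EKE) : P_SUP := by
  intro M _ _ e h x y he he2 hh hh2 hxy hZ
  have hD : 0 < dist x y := dist_pos.mpr hxy
  have hc : 0 < 1 - 2 * e := by linarith
  obtain ⟨p, q, hp, hq, hE, hmin⟩ := h1 M (1 - 2 * e) (h * dist x y) x y hc (by positivity)
  have hxp := dist_nonneg (x := x) (y := p)
  have hyq := dist_nonneg (x := y) (y := q)
  have hpq : p ≠ q := by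
    rintro rfl
    have h2 := dist_triangle x p y
    have h3 : dist p y = dist y p := dist_comm _ _
    nlinarith
  have hpqD : dist p q ≤ dist x y := by
    have : 0 ≤ (1 - 2 * e) * (dist x p + dist y q) := by positivity
    linarith
  obtain ⟨z, hzp, hzq, hz⟩ := hZ p q hpq hpqD
  have hgp : dist p z + dist q z - dist p q ≤ 2 * e * min (dist p z) (dist q z) := by
    unfold gp at hz; linarith
  have hqz : dist z q = dist q z := dist_comm _ _
  have hqy : dist q y = dist y q := dist_comm _ _
  have hzy : dist z y = dist y z := dist_comm _ _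
  refine ⟨p, z, q, hp, by rw [hqy]; exact hq, ?_, ?_⟩
  · rw [hqz, hqy]
    rcases le_total (dist p z) (dist q z) with hle | hle
    · rw [min_eq_left hle, max_eq_right hle]
      rw [min_eq_left hle] at hgp
      nlinarith
    · rw [min_eq_right hle, max_eq_left hle]
      rw [min_eq_right hle] at hgp
      nlinarith
  · rw [hqz, hzy]
    rcases le_total (dist p z) (dist q z) with hle | hle
    · left
      refine ⟨hle, ?_⟩
      by_contra hcon
      push Not at hcon
      rw [min_eq_left hle] at hgp
      have := hmin z q hcon hq (by rw [dist_self, hqz]; nlinarith)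
      exact hzp this.1
    · right
      refine ⟨hle, ?_⟩
      by_contra hcon
      push Not at hcon
      rw [min_eq_right hle] at hgp
      have := hmin p z hp hcon (by rw [dist_self]; nlinarith)
      exact hzq this.2

end Pool.Agent.Helper14.PZ
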